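import Pool.Agent.X238.DW.Stm3

/-! Project DW, part LOW. -/

set_option autoImplicit false

namespace Pool.Agent.X131.DW

open MeasureTheory Set Filter Topology Pool.Agent.X238.DW
open Pool.Agent.Results.MP_8bcfe8_an.VelocityConstantMonotone (IsSol Adm)

universe v

theorem cutL_cont (n : ℕ) : Continuous (cutL n) := by
  unfold cutL
  fun_prop

theorem cutL_nonneg (n : ℕ) (t : ℝ) : 0 ≤ cutL n t := le_max_left _ _

theorem cutL_le_one (n : ℕ) (t : ℝ) : cutL n t ≤ 1 :=
  max_le zero_le_one (min_le_left _ _)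

theorem cutL_pos (n : ℕ) (t : ℝ) (ht : 0 ≤ t) : cutL n t = 0 := by
  apply max_eq_left
  refine (min_le_right _ _).trans ((min_le_right _ _).trans ?_)
  have : 0 ≤ ((n : ℝ) + 1) * t := by positivity
  linarith

theorem cutL_zero (n : ℕ) (t : ℝ) (ht : (n : ℝ) + 1 ≤ |t|) : cutL n t = 0 := by
  rcases le_total 0 t with h | h
  · exact cutL_pos n t h
  · rw [abs_of_nonpos h] at ht
    apply max_eq_left
    refine (min_le_right _ _).trans ((min_le_left _ _).trans ?_)
    linarith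

theorem t_LOW : S_LOW.{v} := by
  intro hEXI hCO H _ _ _ A b T hb hT b' c K hb' hc hK hadm y η hη
  obtain ⟨γ0, hγ0, hE⟩ := Pool.Agent.X245.DW.t_EXB2.{v} c c b' hc le_rfl hb'
  obtain ⟨CE, hCE, hE⟩ := hE γ0 hγ0 le_rfl
  set γ : ℝ := γ0 / 2 with hγd
  have hγ : 0 < γ := by rw [hγd]; linarith
  set M1 : ℝ := CE * ‖y‖ with hM1d
  have hM1 : 0 ≤ M1 := by rw [hM1d]; positivity
  obtain ⟨n, δ, hδ, hco⟩ := hCO (‖T‖ * (‖T‖ * M1)) γ (η / 2) hγ (by linarith)
  obtain ⟨C3, hC3, hex⟩ := hEXI c b' ((n : ℝ) + 1) hc hb' (by positivity)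
  set m : ℝ := M1 / δ with hmd
  have hm : 0 ≤ m := by rw [hmd]; positivity
  set Q : ℝ := K * (C3 * m) * ‖T (T y)‖ with hQ
  have hQ0 : 0 ≤ Q := by rw [hQ]; positivity
  refine ⟨(η / 2) / (Q + 1), by positivity, ?_⟩
  intro ε B hε hε0 hY p h hKer
  have hcoer := hY.coer
  -- decay of the kernel
  have hdec : ∀ s : ℝ, 0 ≤ s → ‖p s‖ ≤ M1 * Real.exp (-(γ * s)) ∧
      ‖h s‖ ≤ M1 * Real.exp (-(γ * s)) := by
    intro s hs
    have h1 := hE H B hcoer c ⟨le_rfl, le_rfl⟩ p h (fun _ => 0) 0 le_rfl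
      (fun s _ => hKer.dP s) (fun s _ => by simpa using hKer.dG s) hKer.P0
      (fun s _ => by simp) s hs
    rw [hKer.G0, add_zero] at h1
    exact h1
  have hhc : Continuous h := continuous_iff_continuousAt.2 fun s => (hKer.dG s).continuousAt
  have hexp1 : ∀ s : ℝ, 0 ≤ s → M1 * Real.exp (-(γ * s)) ≤ M1 := by
    intro s hs
    have : Real.exp (-(γ * s)) ≤ 1 := by
      rw [Real.exp_le_one_iff]
      have := mul_nonneg hγ.le hs
      linarith
    nlinarith
  -- the forcing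
  set den : ℝ → ℝ := fun τ => ‖T (T (h (-τ)))‖ + δ with hden
  have hdenpos : ∀ τ, 0 < den τ := fun τ => by
    have := norm_nonneg (T (T (h (-τ))))
    simp only [hden]; linarith
  have hdenc : Continuous den := by
    simp only [hden]
    exact ((T.continuous.comp (T.continuous.comp (hhc.comp continuous_neg))).norm).add
      continuous_const
  set φ : ℝ → H := fun τ => (cutL n τ / den τ) • h (-τ) with hφ
  have hφc : Continuous φ :=
    ((cutL_cont n).div hdenc (fun τ => (hdenpos τ).ne')).smul (hhc.comp continuous_neg)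
  have hφ0 : ∀ t, (n : ℝ) + 1 ≤ |t| → φ t = 0 := by
    intro t ht
    simp [hφ, cutL_zero n t ht]
  have hφm : ∀ t, ‖φ t‖ ≤ m := by
    intro t
    rcases le_total 0 t with ht | ht
    · simp only [hφ, cutL_pos n t ht, zero_div, zero_smul, norm_zero]
      exact hm
    · have h1 : ‖h (-t)‖ ≤ M1 := (hdec (-t) (by linarith)).2.trans (hexp1 (-t) (by linarith))
      have h2 : cutL n t / den t ≤ 1 / δ := by
        apply div_le_div₀ zero_le_one (cutL_le_one n t) hδ
        have := norm_nonneg (T (T (h (-t))))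
        simp only [hden]; linarith
      have h3 : 0 ≤ cutL n t / den t := div_nonneg (cutL_nonneg n t) (hdenpos t).le
      simp only [hφ]
      rw [norm_smul, Real.norm_eq_abs, abs_of_nonneg h3]
      calc cutL n t / den t * ‖h (-t)‖ ≤ 1 / δ * M1 :=
            mul_le_mul h2 h1 (norm_nonneg _) (by positivity)
        _ = m := by rw [hmd]; ring
  have hφT : ∀ t, ‖T (T (φ t))‖ ≤ 1 := by
    intro t
    have h3 : 0 ≤ cutL n t / den t := div_nonneg (cutL_nonneg n t) (hdenpos t).le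
    simp only [hφ, map_smul]
    rw [norm_smul, Real.norm_eq_abs, abs_of_nonneg h3, div_mul_eq_mul_div, div_le_one (hdenpos t)]
    have h4 := norm_nonneg (T (T (h (-t))))
    have h5 := mul_le_mul_of_nonneg_right (cutL_le_one n t) h4
    simp only [hden]
    linarith
  obtain ⟨υ, ω, hυ, hω, hbd⟩ := hex H B hcoer φ m hφc hφ0 hφm
  have hυc : Continuous υ := continuous_iff_continuousAt.2 fun s => (hυ s).continuousAt
  have hωc : Continuous ω := continuous_iff_continuousAt.2 fun s => (hω s).continuousAt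
  have hTT : ∀ x : H, T (T (B x)) = B (T (T x)) := by
    intro x
    rw [hY.comm (T x), hY.comm x]
  have hTB : ∀ x : H, B (T (T x)) = T x - ε • B (T x) := by
    intro x
    rw [eq_sub_iff_add_eq]
    exact hY.left (T x)
  -- derivatives
  have dU : ∀ t, HasDerivAt (fun t => T (T (υ t))) (T (T (ω t))) t := fun t =>
    T.hasFDerivAt.comp_hasDerivAt t (T.hasFDerivAt.comp_hasDerivAt t (hυ t))
  have dW : ∀ t, HasDerivAt (fun t => T (T (ω t)))
      (T (T (φ t)) - c • T (T (ω t)) - B (T (T (υ t)))) t := by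
    intro t
    have h1 : HasDerivAt (fun t => T (T (ω t))) (T (T (φ t - c • ω t - B (υ t)))) t :=
      T.hasFDerivAt.comp_hasDerivAt t (T.hasFDerivAt.comp_hasDerivAt t (hω t))
    refine h1.congr_deriv ?_
    rw [map_sub, map_sub, map_sub, map_sub, T.map_smul c (ω t), T.map_smul c (T (ω t)), hTT]
  have cTT : Continuous fun x : H => T (T x) := T.continuous.comp T.continuous
  have cU : Continuous fun t => T (T (υ t)) := cTT.comp hυc
  have cW : Continuous fun t => T (T (ω t)) := cTT.comp hωc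
  have cF : Continuous fun t => T (T (φ t)) := cTT.comp hφc
  have nTT : ∀ x : H, ‖T (T x)‖ ≤ ‖T‖ * (‖T‖ * ‖x‖) := fun x =>
    (T.le_opNorm _).trans (mul_le_mul_of_nonneg_left (T.le_opNorm _) (norm_nonneg _))
  set M2 : ℝ := ‖T‖ * (‖T‖ * (C3 * m)) + 1 with hM2
  have hM20 : 0 ≤ ‖T‖ * (‖T‖ * (C3 * m)) := by positivity
  have bU : ∀ t, ‖T (T (υ t))‖ ≤ M2 := by
    intro t
    have h1 : ‖T‖ * (‖T‖ * ‖υ t‖) ≤ ‖T‖ * (‖T‖ * (C3 * m)) := by
      gcongr
      exact (hbd t).1
    have := nTT (υ t)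
    rw [hM2]; linarith
  have bW : ∀ t, ‖T (T (ω t))‖ ≤ M2 := by
    intro t
    have h1 : ‖T‖ * (‖T‖ * ‖ω t‖) ≤ ‖T‖ * (‖T‖ * (C3 * m)) := by
      gcongr
      exact (hbd t).2
    have := nTT (ω t)
    rw [hM2]; linarith
  have eU : ∀ s t : ℝ, T (T (υ t)) - T (T (υ s)) = ∫ τ in s..t, T (T (ω τ)) := by
    intro s t
    exact (intervalIntegral.integral_eq_sub_of_hasDerivAt (fun τ _ => dU τ)
      (cW.intervalIntegrable _ _)).symm
  -- representation
  have hKT : KerV c B (T (T y)) (fun s => T (T (p s))) (fun s => T (T (h s))) := by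
    refine ⟨fun s => ?_, fun s => ?_, ?_, ?_⟩
    · exact T.hasFDerivAt.comp_hasDerivAt s (T.hasFDerivAt.comp_hasDerivAt s (hKer.dP s))
    · have h1 : HasDerivAt (fun t => T (T (h t))) (T (T (-(c • h s) - B (p s)))) s :=
        T.hasFDerivAt.comp_hasDerivAt s (T.hasFDerivAt.comp_hasDerivAt s (hKer.dG s))
      refine h1.congr_deriv ?_
      rw [map_sub, map_sub, map_neg, map_neg, map_smul, map_smul, hTT]
    · simp [hKer.P0]
    · simp [hKer.G0]
  have hdT : ∀ s : ℝ, 0 ≤ s → ‖T (T (h s))‖ ≤ ‖T‖ * (‖T‖ * M1) * Real.exp (-(γ * s)) := by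
    intro s hs
    have h1 := nTT (h s)
    have h2 : ‖T‖ * (‖T‖ * ‖h s‖) ≤ ‖T‖ * (‖T‖ * (M1 * Real.exp (-(γ * s)))) := by
      gcongr
      exact (hdec s hs).2
    calc ‖T (T (h s))‖ ≤ ‖T‖ * (‖T‖ * (M1 * Real.exp (-(γ * s)))) := h1.trans h2
      _ = ‖T‖ * (‖T‖ * M1) * Real.exp (-(γ * s)) := by ring
  have hDT : DecV (fun s => T (T (p s))) (fun s => T (T (h s))) := by
    refine ⟨γ, ‖T‖ * (‖T‖ * M1), hγ, fun s hs => ⟨?_, hdT s hs⟩⟩
    have h1 := nTT (p s)
    have h2 : ‖T‖ * (‖T‖ * ‖p s‖) ≤ ‖T‖ * (‖T‖ * (M1 * Real.exp (-(γ * s)))) := by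
      gcongr
      exact (hdec s hs).1
    calc ‖T (T (p s))‖ ≤ ‖T‖ * (‖T‖ * (M1 * Real.exp (-(γ * s)))) := h1.trans h2
      _ = ‖T‖ * (‖T‖ * M1) * Real.exp (-(γ * s)) := by ring
  have hrep := t_REP2 H c b' B hb' hcoer (T (T y)) _ _ hKT hDT (fun t => T (T (φ t)))
    (fun t => T (T (υ t))) (fun t => T (T (ω t))) M2 cF.aestronglyMeasurable
    (Eventually.of_forall fun t => (hφT t).trans (by rw [hM2]; linarith)) cU cW bU bW eU
    (fun s t => (intervalIntegral.integral_eq_sub_of_hasDerivAt (fun τ _ => dW τ)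
      (((cF.sub (cW.const_smul c)).sub (B.continuous.comp cU)).intervalIntegrable _ _)).symm)
  have hcut : ∫ s in Ioi (0 : ℝ), inner ℝ (T (T (φ (-s)))) (T (T (h s))) =
      ∫ s in Ioi (0 : ℝ), cutL n (-s) * (‖T (T (h s))‖ ^ 2 / (‖T (T (h s))‖ + δ)) := by
    congr 1
    funext s
    simp only [hφ, hden, map_smul, neg_neg, real_inner_smul_left, real_inner_self_eq_norm_sq]
    ring
  -- the solution of the `A`-equation
  have hsol : IsSol A c (fun t => T (T (φ t)) + ε • B (T (υ t))) (fun t => T (T (υ t)))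
      (fun t => T (T (ω t))) := by
    refine ⟨cU, cW, ⟨M2, fun t => ⟨bU t, bW t⟩⟩, eU, ?_⟩
    intro v s t
    have hd : ∀ τ, HasDerivAt (fun τ => inner ℝ (T (T (ω τ))) (v : H))
        (inner ℝ (T (T (φ τ)) + ε • B (T (υ τ))) (v : H) - c * inner ℝ (T (T (ω τ))) (v : H) -
          inner ℝ (T (T (υ τ))) (A v)) τ := by
      intro τ
      have h1 := (dW τ).inner ℝ (hasDerivAt_const τ (v : H))
      refine h1.congr_deriv ?_
      have h2 : inner ℝ (T (T (υ τ))) (A v) = inner ℝ (T (υ τ)) (v : H) := by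
        rw [hT.symm, hT.left]
      rw [h2, hTB]
      simp only [inner_zero_right, inner_sub_left, inner_add_left, real_inner_smul_left]
      ring
    have hc1 : Continuous fun τ => inner ℝ (T (T (φ τ)) + ε • B (T (υ τ))) (v : H) -
        c * inner ℝ (T (T (ω τ))) (v : H) - inner ℝ (T (T (υ τ))) (A v) := by
      have c1 : Continuous fun τ => B (T (υ τ)) := B.continuous.comp (T.continuous.comp hυc)
      exact (((cF.add (c1.const_smul ε)).inner continuous_const).sub
        ((cW.inner continuous_const).const_mul c)).sub (cU.inner continuous_const)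
    rw [intervalIntegral.integral_eq_sub_of_hasDerivAt (fun τ _ => hd τ)
      (hc1.intervalIntegrable _ _), inner_sub_left]
  have hF : ∀ t, ‖T (T (φ t)) + ε • B (T (υ t))‖ ≤ 1 + ε * (C3 * m) := by
    intro t
    refine (norm_add_le _ _).trans (add_le_add (hφT t) ?_)
    rw [norm_smul, Real.norm_eq_abs, abs_of_pos hε]
    exact mul_le_mul_of_nonneg_left ((hY.contr _).trans (hbd t).1) hε.le
  have hw0 := hadm _ _ _ (1 + ε * (C3 * m)) (by
    have c1 : Continuous fun τ => B (T (υ τ)) := B.continuous.comp (T.continuous.comp hυc)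
    exact (cF.add (c1.const_smul ε)).aestronglyMeasurable) (Eventually.of_forall hF) hsol 0
  have hfin := hco H (fun s => T (T (h s))) (cTT.comp hhc) hdT
  have hin : inner ℝ (T (T (ω 0))) (T (T y)) ≤ K * (1 + ε * (C3 * m)) * ‖T (T y)‖ :=
    (real_inner_le_norm _ _).trans (mul_le_mul_of_nonneg_right hw0 (norm_nonneg _))
  rw [← hcut, ← hrep] at hfin
  have hεQ : ε * Q ≤ η / 2 := by
    have h1 : ε * (Q + 1) ≤ η / 2 := by
      rwa [le_div_iff₀ (by positivity)] at hε0
    nlinarith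
  have : K * (1 + ε * (C3 * m)) * ‖T (T y)‖ = K * ‖T (T y)‖ + ε * Q := by
    rw [hQ]; ring
  linarith

end Pool.Agent.X131.DW
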