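import Pool.Agent.X238.DW.Stm2

/-! Project DW, part REP2: bounded solutions of `u'' + c u' + A u = f` are given by the kernel. -/

set_option autoImplicit false

namespace Pool.Agent.X131.DW

open MeasureTheory Set Filter Topology Pool.Agent.X238.DW
open scoped NNReal

universe v

/-- primitives of locally integrable functions: almost everywhere differentiable -/
theorem ae_of {V : Type v} [NormedAddCommGroup V] [InnerProductSpace ℝ V] [CompleteSpace V]
    {φ q : ℝ → V} (hq : LocallyIntegrable q volume)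
    (h : ∀ s t : ℝ, φ t - φ s = ∫ τ in s..t, q τ) : ∀ᵐ t, HasDerivAt φ (q t) t := by
  filter_upwards [_root_.LocallyIntegrable.ae_hasDerivAt_integral hq] with t ht
  have h1 := (ht 0).add_const (φ 0)
  have h4 : (fun x => (∫ v in (0 : ℝ)..x, q v) + φ 0) = φ := by
    funext x
    rw [← h 0 x]
    abel
  rw [h4] at h1
  exact h1

theorem t_REP2 : S_REP2.{v} := by
  intro V _ _ _ c b A hb hA x p g hK hD f u w M hfm hfM hu hw huM hwM hui hwi
  obtain ⟨γ, C, hγ, hC⟩ := hD
  have hM : 0 ≤ M := le_trans (norm_nonneg _) (huM 0)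
  have hC0 : 0 ≤ C := by
    have h := (hC 0 le_rfl).1
    have h' := norm_nonneg (p 0)
    simp at h
    linarith
  have hgc : Continuous g := continuous_iff_continuousAt.2 fun s => (hK.dG s).continuousAt
  have hpc : Continuous p := continuous_iff_continuousAt.2 fun s => (hK.dP s).continuousAt
  have hexp1 : ∀ s : ℝ, 0 ≤ s → C * Real.exp (-(γ * s)) ≤ C := by
    intro s hs
    have : Real.exp (-(γ * s)) ≤ 1 := by
      rw [Real.exp_le_one_iff]
      have := mul_nonneg hγ.le hs
      linarith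
    nlinarith
  have hgb : ∀ s : ℝ, 0 ≤ s → ‖g s‖ ≤ C := fun s hs => (hC s hs).2.trans (hexp1 s hs)
  have hpb : ∀ s : ℝ, 0 ≤ s → ‖p s‖ ≤ C := fun s hs => (hC s hs).1.trans (hexp1 s hs)
  have hAn : ∀ y : V, ‖A y‖ ≤ ‖A‖ * ‖y‖ := fun y => A.le_opNorm y
  have hA0 : 0 ≤ ‖A‖ := norm_nonneg _
  -- local integrability
  have hfl : LocallyIntegrable f volume := by
    intro y
    refine ⟨Ioo (y - 1) (y + 1), Ioo_mem_nhds (by linarith) (by linarith), ?_⟩
    refine Measure.integrableOn_of_bounded (M := M) (by simp) hfm ?_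
    exact ae_restrict_of_ae hfM
  have hql : LocallyIntegrable (fun τ => f τ - c • w τ - A (u τ)) volume := by
    have h1 : LocallyIntegrable (fun τ => c • w τ) volume :=
      (hw.const_smul c).locallyIntegrable
    have h2 : LocallyIntegrable (fun τ => A (u τ)) volume :=
      (A.continuous.comp hu).locallyIntegrable
    exact (hfl.sub h1).sub h2
  have hwae := ae_of hql hwi
  have huae := ae_of hw.locallyIntegrable hui
  have hg' : ∀ t, HasDerivAt (fun t => g (-t)) (c • g (-t) + A (p (-t))) t := by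
    intro t
    have h1 := HasDerivAt.scomp t (hK.dG (-t)) (hasDerivAt_neg t)
    refine h1.congr_deriv ?_
    simp only [neg_smul, one_smul]
    abel
  have hp' : ∀ t, HasDerivAt (fun t => p (-t)) (-(g (-t))) t := by
    intro t
    have h1 := HasDerivAt.scomp t (hK.dP (-t)) (hasDerivAt_neg t)
    refine h1.congr_deriv ?_
    simp only [neg_smul, one_smul]
  have hAp' : ∀ t, HasDerivAt (fun t => A (p (-t))) (A (-(g (-t)))) t := fun t =>
    A.hasFDerivAt.comp_hasDerivAt t (hp' t)
  set H : ℝ → ℝ := fun t => inner ℝ (w t) (g (-t)) - inner ℝ (u t) (A (p (-t))) with hH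
  -- Lipschitz bounds
  have lw : ∀ s t : ℝ, ‖w t - w s‖ ≤ (M + |c| * M + ‖A‖ * M) * |t - s| := by
    intro s t
    rw [hwi s t]
    apply intervalIntegral.norm_integral_le_of_norm_le_const_ae
    filter_upwards [hfM] with τ hτ _
    calc ‖f τ - c • w τ - A (u τ)‖ ≤ ‖f τ - c • w τ‖ + ‖A (u τ)‖ := norm_sub_le _ _
      _ ≤ (‖f τ‖ + ‖c • w τ‖) + ‖A (u τ)‖ := by gcongr; exact norm_sub_le _ _
      _ ≤ (M + |c| * M) + ‖A‖ * M := by
        rw [norm_smul, Real.norm_eq_abs]
        have e1 := mul_le_mul_of_nonneg_left (hwM τ) (abs_nonneg c)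
        have e2 := (hAn (u τ)).trans (mul_le_mul_of_nonneg_left (huM τ) hA0)
        linarith
      _ = M + |c| * M + ‖A‖ * M := by ring
  have lu : ∀ s t : ℝ, ‖u t - u s‖ ≤ M * |t - s| := by
    intro s t
    rw [hui s t]
    exact intervalIntegral.norm_integral_le_of_norm_le_const fun τ _ => hwM τ
  have lg : ∀ s t : ℝ, 0 ≤ s → 0 ≤ t → ‖g t - g s‖ ≤ (|c| * C + ‖A‖ * C) * ‖t - s‖ := by
    intro s t hs ht
    apply Convex.norm_image_sub_le_of_norm_hasDerivWithin_le (s := Ici (0 : ℝ))
      (f' := fun r => -(c • g r) - A (p r))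
    · intro r _
      exact (hK.dG r).hasDerivWithinAt
    · intro r hr
      have hr' : 0 ≤ r := hr
      calc ‖-(c • g r) - A (p r)‖ ≤ ‖-(c • g r)‖ + ‖A (p r)‖ := norm_sub_le _ _
        _ ≤ |c| * C + ‖A‖ * C := by
          rw [norm_neg, norm_smul, Real.norm_eq_abs]
          have e1 := mul_le_mul_of_nonneg_left (hgb r hr') (abs_nonneg c)
          have e2 := (hAn (p r)).trans (mul_le_mul_of_nonneg_left (hpb r hr') hA0)
          linarith
    · exact convex_Ici 0
    · exact hs
    · exact ht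
  have lp : ∀ s t : ℝ, 0 ≤ s → 0 ≤ t → ‖p t - p s‖ ≤ C * ‖t - s‖ := by
    intro s t hs ht
    exact Convex.norm_image_sub_le_of_norm_hasDerivWithin_le (s := Ici (0 : ℝ)) (f' := g)
      (fun r _ => (hK.dP r).hasDerivWithinAt) (fun r hr => hgb r hr) (convex_Ici 0) hs ht
  set L : ℝ := (M + |c| * M + ‖A‖ * M) * C + M * (|c| * C + ‖A‖ * C) + M * (‖A‖ * C) +
    M * (‖A‖ * C) with hL
  have hL0 : 0 ≤ L := by positivity
  have lH : ∀ s t : ℝ, s ≤ 0 → t ≤ 0 → |H t - H s| ≤ L * |t - s| := by
    intro s t hs ht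
    have d1 : H t - H s = inner ℝ (w t - w s) (g (-t)) + inner ℝ (w s) (g (-t) - g (-s)) -
        inner ℝ (u t - u s) (A (p (-t))) - inner ℝ (u s) (A (p (-t) - p (-s))) := by
      simp only [hH, inner_sub_left, inner_sub_right, map_sub]
      ring
    have ab : ‖-t - -s‖ = |t - s| := by
      rw [Real.norm_eq_abs, show -t - -s = -(t - s) by ring, abs_neg]
    have b1 : |inner ℝ (w t - w s) (g (-t))| ≤ (M + |c| * M + ‖A‖ * M) * |t - s| * C :=
      (abs_real_inner_le_norm _ _).trans (mul_le_mul (lw s t) (hgb _ (by linarith))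
        (norm_nonneg _) (by positivity))
    have b2 : |inner ℝ (w s) (g (-t) - g (-s))| ≤ M * ((|c| * C + ‖A‖ * C) * |t - s|) := by
      refine (abs_real_inner_le_norm _ _).trans (mul_le_mul (hwM s) ?_ (norm_nonneg _) hM)
      rw [← ab]
      exact lg _ _ (by linarith) (by linarith)
    have b3 : |inner ℝ (u t - u s) (A (p (-t)))| ≤ M * |t - s| * (‖A‖ * C) :=
      (abs_real_inner_le_norm _ _).trans (mul_le_mul (lu s t)
        ((hAn _).trans (mul_le_mul_of_nonneg_left (hpb _ (by linarith)) hA0))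
        (norm_nonneg _) (by positivity))
    have b4 : |inner ℝ (u s) (A (p (-t) - p (-s)))| ≤ M * (‖A‖ * (C * |t - s|)) := by
      refine (abs_real_inner_le_norm _ _).trans (mul_le_mul (huM s) ?_ (norm_nonneg _) hM)
      refine (hAn _).trans (mul_le_mul_of_nonneg_left ?_ hA0)
      rw [← ab]
      exact lp _ _ (by linarith) (by linarith)
    rw [d1]
    calc |inner ℝ (w t - w s) (g (-t)) + inner ℝ (w s) (g (-t) - g (-s)) -
        inner ℝ (u t - u s) (A (p (-t))) - inner ℝ (u s) (A (p (-t) - p (-s)))|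
        ≤ |inner ℝ (w t - w s) (g (-t))| + |inner ℝ (w s) (g (-t) - g (-s))| +
          |inner ℝ (u t - u s) (A (p (-t)))| + |inner ℝ (u s) (A (p (-t) - p (-s)))| := by
          refine (abs_sub _ _).trans ?_
          gcongr
          refine (abs_sub _ _).trans ?_
          gcongr
          exact abs_add_le _ _
      _ ≤ (M + |c| * M + ‖A‖ * M) * |t - s| * C + M * ((|c| * C + ‖A‖ * C) * |t - s|) +
          M * |t - s| * (‖A‖ * C) + M * (‖A‖ * (C * |t - s|)) := by
          linarith
      _ = L * |t - s| := by rw [hL]; ring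
  have hHac : ∀ S : ℝ, 0 ≤ S → AbsolutelyContinuousOnInterval H (-S) 0 := by
    intro S hS
    have : LipschitzOnWith (Real.toNNReal L) H (uIcc (-S) 0) := by
      apply LipschitzOnWith.of_dist_le_mul
      intro s hs t ht
      rw [uIcc_of_le (by linarith)] at hs ht
      rw [Real.dist_eq, Real.dist_eq, Real.coe_toNNReal L hL0]
      exact lH t s ht.2 hs.2
    exact this.absolutelyContinuousOnInterval
  have hHd : ∀ᵐ t, HasDerivAt H (inner ℝ (f t) (g (-t))) t := by
    filter_upwards [hwae, huae] with t ht ht'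
    have h1 := (ht.inner ℝ (hg' t)).sub (ht'.inner ℝ (hAp' t))
    refine h1.congr_deriv ?_
    have h2 := hA.symm (u t) (g (-t))
    simp only [inner_add_right, inner_sub_left, real_inner_smul_left, real_inner_smul_right,
      map_neg, inner_neg_right]
    rw [h2]
    ring
  have hint : ∀ S : ℝ, 0 ≤ S → ∫ s in (0 : ℝ)..S, inner ℝ (f (-s)) (g s) =
      inner ℝ (w 0) x - H (-S) := by
    intro S hS
    have h1 : ∫ s in (0 : ℝ)..S, inner ℝ (f (-s)) (g s) =
        ∫ t in (-S)..0, inner ℝ (f t) (g (-t)) := by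
      have h2 := intervalIntegral.integral_comp_neg (a := 0) (b := S)
        (fun t => inner ℝ (f t) (g (-t)))
      simp only [neg_neg, neg_zero] at h2
      exact h2
    rw [h1]
    have h3 := (hHac S hS).integral_deriv_eq_sub
    have h4 : ∫ t in (-S)..0, deriv H t = ∫ t in (-S)..0, inner ℝ (f t) (g (-t)) := by
      apply intervalIntegral.integral_congr_ae
      filter_upwards [hHd] with t ht _
      exact ht.deriv
    rw [← h4, h3]
    simp [hH, hK.P0, hK.G0]
  -- limit
  have hexp : IntegrableOn (fun s : ℝ => M * (C * Real.exp (-(γ * s)))) (Ioi 0) volume := by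
    have h1 : IntegrableOn (fun s : ℝ => Real.exp (-γ * s)) (Ioi 0) volume :=
      exp_neg_integrableOn_Ioi 0 hγ
    have h2 := (h1.const_mul C).const_mul M
    simp only [neg_mul] at h2
    exact h2
  have hfneg : AEStronglyMeasurable (fun s : ℝ => f (-s)) volume :=
    hfm.comp_measurePreserving (Measure.measurePreserving_neg volume)
  have hfnegM : ∀ᵐ s : ℝ, ‖f (-s)‖ ≤ M :=
    (Measure.measurePreserving_neg (volume : Measure ℝ)).quasiMeasurePreserving.ae hfM
  have hI : IntegrableOn (fun s : ℝ => inner ℝ (f (-s)) (g s)) (Ioi 0) volume := by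
    refine Integrable.mono' hexp ((hfneg.inner hgc.aestronglyMeasurable).restrict) ?_
    filter_upwards [ae_restrict_of_ae hfnegM, ae_restrict_mem measurableSet_Ioi] with s hs hs0
    rw [Real.norm_eq_abs]
    exact (abs_real_inner_le_norm _ _).trans
      (mul_le_mul hs (hC s (le_of_lt hs0)).2 (norm_nonneg _) hM)
  have hlim1 : Tendsto (fun S : ℝ => ∫ s in (0 : ℝ)..S, inner ℝ (f (-s)) (g s)) atTop
      (𝓝 (∫ s in Ioi (0 : ℝ), inner ℝ (f (-s)) (g s))) :=
    intervalIntegral_tendsto_integral_Ioi 0 hI tendsto_id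
  have hHlim : Tendsto (fun S : ℝ => H (-S)) atTop (𝓝 0) := by
    have hbd : ∀ᶠ S : ℝ in atTop, ‖H (-S)‖ ≤ (M * C + M * (‖A‖ * C)) * Real.exp (-(γ * S)) := by
      filter_upwards [eventually_ge_atTop 0] with S hS
      have e1 : H (-S) = inner ℝ (w (-S)) (g S) - inner ℝ (u (-S)) (A (p S)) := by simp [hH]
      rw [e1, Real.norm_eq_abs]
      have a1 : |inner ℝ (w (-S)) (g S)| ≤ M * (C * Real.exp (-(γ * S))) :=
        (abs_real_inner_le_norm _ _).trans
          (mul_le_mul (hwM _) (hC S hS).2 (norm_nonneg _) hM)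
      have a2 : |inner ℝ (u (-S)) (A (p S))| ≤ M * (‖A‖ * (C * Real.exp (-(γ * S)))) :=
        (abs_real_inner_le_norm _ _).trans
          (mul_le_mul (huM _) ((hAn _).trans (mul_le_mul_of_nonneg_left (hC S hS).1 hA0))
            (norm_nonneg _) hM)
      calc |inner ℝ (w (-S)) (g S) - inner ℝ (u (-S)) (A (p S))|
          ≤ |inner ℝ (w (-S)) (g S)| + |inner ℝ (u (-S)) (A (p S))| := abs_sub _ _
        _ ≤ M * (C * Real.exp (-(γ * S))) + M * (‖A‖ * (C * Real.exp (-(γ * S)))) :=
            add_le_add a1 a2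
        _ = (M * C + M * (‖A‖ * C)) * Real.exp (-(γ * S)) := by ring
    have hz : Tendsto (fun S : ℝ => (M * C + M * (‖A‖ * C)) * Real.exp (-(γ * S))) atTop
        (𝓝 0) := by
      have z1 : Tendsto (fun S : ℝ => Real.exp (-(γ * S))) atTop (𝓝 0) :=
        Real.tendsto_exp_neg_atTop_nhds_zero.comp (tendsto_id.const_mul_atTop hγ)
      simpa using z1.const_mul (M * C + M * (‖A‖ * C))
    exact squeeze_zero_norm' hbd hz
  have hlim2 : Tendsto (fun S : ℝ => ∫ s in (0 : ℝ)..S, inner ℝ (f (-s)) (g s)) atTop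
      (𝓝 (inner ℝ (w 0) x)) := by
    have h1 : Tendsto (fun S : ℝ => inner ℝ (w 0) x - H (-S)) atTop (𝓝 (inner ℝ (w 0) x)) := by
      simpa using hHlim.const_sub (inner ℝ (w 0) x)
    refine h1.congr' ?_
    filter_upwards [eventually_ge_atTop 0] with S hS
    exact (hint S hS).symm
  exact tendsto_nhds_unique hlim2 hlim1

end Pool.Agent.X131.DW
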