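import Pool.Agent.X238.DW.Stm3

/-! Project DW, part SA: the inverse of a coercive self-adjoint operator. -/

set_option autoImplicit false

namespace Pool.Agent.X131.DW

open MeasureTheory Set Filter Topology Pool.Agent.X238.DW

universe v

theorem t_SA : S_SA.{v} := by
  intro H _ _ _ A b hb hdense hadj hco
  have hsym : ∀ x y : A.domain, inner ℝ (A x) (y : H) = inner ℝ (x : H) (A y) := by
    have h1 := LinearPMap.adjoint_isFormalAdjoint hdense
    rw [hadj] at h1
    exact h1
  have hlow : ∀ x : A.domain, b * ‖(x : H)‖ ≤ ‖A x‖ := by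
    intro x
    rcases eq_or_lt_of_le (norm_nonneg (x : H)) with h0 | h0
    · rw [← h0, mul_zero]; exact norm_nonneg _
    · have h1 := (hco x).trans (real_inner_le_norm _ _)
      nlinarith
  have hinj : ∀ x : A.domain, A x = 0 → x = 0 := by
    intro x hx
    have h1 := hlow x
    rw [hx, norm_zero] at h1
    have h2 : ‖(x : H)‖ = 0 := by
      have := norm_nonneg (x : H)
      nlinarith
    exact Subtype.ext (norm_eq_zero.1 h2)
  have hclosed : A.IsClosed := by
    have := LinearPMap.adjoint_isClosed hdense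
    rwa [hadj] at this
  -- the range
  set R : Submodule ℝ H := LinearMap.range A.toFun with hR
  have hRc : IsClosed (R : Set H) := by
    rw [← isSeqClosed_iff_isClosed]
    intro y z hy hz
    choose x hx using hy
    have hx' : ∀ k, A (x k) = y k := hx
    have hcau : CauchySeq fun k => (x k : H) := by
      have h1 := hz.cauchySeq
      rw [Metric.cauchySeq_iff] at h1 ⊢
      intro e he
      obtain ⟨N, hN⟩ := h1 (b * e) (by positivity)
      refine ⟨N, fun k hk l hl => ?_⟩
      have h2 := hN k hk l hl
      rw [dist_eq_norm] at h2 ⊢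
      have h3 := hlow (x k - x l)
      rw [LinearPMap.map_sub, hx', hx'] at h3
      have h4 : ((x k - x l : A.domain) : H) = (x k : H) - (x l : H) := rfl
      rw [h4] at h3
      by_contra hcon
      push Not at hcon
      have : b * e ≤ b * ‖(x k : H) - (x l : H)‖ := mul_le_mul_of_nonneg_left hcon hb.le
      linarith
    obtain ⟨x0, hx0⟩ := cauchySeq_tendsto_of_complete hcau
    have hg : ((x0, z) : H × H) ∈ A.graph := by
      have h1 : IsClosed (A.graph : Set (H × H)) := hclosed
      refine h1.mem_of_tendsto (hx0.prodMk_nhds hz) (Eventually.of_forall fun k => ?_)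
      rw [SetLike.mem_coe, LinearPMap.mem_graph_iff]
      exact ⟨x k, rfl, hx' k⟩
    rw [LinearPMap.mem_graph_iff] at hg
    obtain ⟨q, _, hq⟩ := hg
    exact ⟨q, hq⟩
  have hRtop : R = ⊤ := by
    have : CompleteSpace R := hRc.completeSpace_coe
    rw [← Submodule.orthogonal_eq_bot_iff, Submodule.eq_bot_iff]
    intro y hy
    rw [Submodule.mem_orthogonal'] at hy
    have hy' : ∀ x : A.domain, inner ℝ y (A x) = 0 := fun x => hy _ ⟨x, rfl⟩
    have hmem : y ∈ A.adjoint.domain :=
      LinearPMap.mem_adjoint_domain_of_exists y ⟨0, fun x => by rw [hy' x, inner_zero_left]⟩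
    rw [hadj] at hmem
    have hA0 : A ⟨y, hmem⟩ = 0 := by
      have h1 : ∀ x : A.domain, inner ℝ (A ⟨y, hmem⟩) (x : H) = 0 := fun x => by
        rw [hsym]; exact hy' x
      exact hdense.eq_zero_of_inner_left ℝ fun x hx => h1 ⟨x, hx⟩
    exact congrArg Subtype.val (hinj _ hA0)
  have hsurj : ∀ x : H, ∃ z : A.domain, A z = x := by
    intro x
    have : x ∈ R := by rw [hRtop]; trivial
    exact this
  choose z hz using hsurj
  have huniq : ∀ u w : A.domain, A u = A w → u = w := by
    intro u w huw
    have := hinj (u - w) (by rw [LinearPMap.map_sub, huw, sub_self])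
    exact sub_eq_zero.1 this
  let T0 : H →ₗ[ℝ] H :=
    { toFun := fun x => (z x : H)
      map_add' := fun x y => by
        have : z (x + y) = z x + z y := huniq _ _ (by rw [LinearPMap.map_add, hz, hz, hz])
        rw [this]; rfl
      map_smul' := fun a x => by
        have : z (a • x) = a • z x := huniq _ _ (by rw [LinearPMap.map_smul, hz, hz])
        rw [this]; rfl }
  have hbd : ∀ x : H, ‖T0 x‖ ≤ (1 / b) * ‖x‖ := by
    intro x
    have h1 := hlow (z x)
    rw [hz] at h1
    change ‖(z x : H)‖ ≤ _
    rw [one_div, inv_mul_eq_div, le_div_iff₀ hb]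
    linarith
  let T : H →L[ℝ] H := T0.mkContinuous (1 / b) hbd
  have hTz : ∀ x, T x = (z x : H) := fun _ => rfl
  have hsymT : ∀ x y : H, inner ℝ (T x) y = inner ℝ x (T y) := by
    intro x y
    rw [hTz, hTz]
    have h1 := hsym (z x) (z y)
    rw [hz, hz] at h1
    exact h1.symm
  refine ⟨T, ?_, ?_, ?_, hsymT, ?_, ?_⟩
  · intro x; exact (z x).2
  · intro x h
    exact hz x
  · intro v
    rw [hTz]
    exact congrArg Subtype.val (huniq _ _ (hz (A v)))
  · intro x
    have h1 := hco (z x)
    rw [hz] at h1
    rw [hsymT, hTz]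
    exact h1
  · have h1 : (A.domain : Set H) ⊆ Set.range T := by
      intro x hx
      refine ⟨A ⟨x, hx⟩, ?_⟩
      rw [hTz]
      exact congrArg Subtype.val (huniq _ ⟨x, hx⟩ (hz (A ⟨x, hx⟩)))
    exact hdense.mono h1

end Pool.Agent.X131.DW
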